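import Pool.Agent.Y660.FD.Up

/-!
# Bipartite graphs without three vertices having the same `d` neighbours

Such graphs are faithfully represented in dimension `d`. Points of the moment curve with
parameters in general position (no `e + 3` points of the curve in dimension `e + 1` on a sphere),
and mirror images for pairs of vertices with the same neighbours.
-/

set_option autoImplicit false

open Finset Polynomial

namespace Pool.Agent.Y660.FD

/-- the polynomial with the values `P e` -/
noncomputable def PP (e : ℕ) : ℝ[X] := ∑ i : Fin (e + 1), X ^ (2 * (i.val + 1))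

lemma PP_eval (e : ℕ) (t : ℝ) : (PP e).eval t = P e t := by
  unfold PP P
  rw [Polynomial.eval_finset_sum]
  exact Finset.sum_congr rfl fun i _ => by rw [Polynomial.eval_pow, Polynomial.eval_X]; ring

lemma PP_coeff (e : ℕ) : (PP e).coeff (2 * (e + 1)) = 1 := by
  unfold PP
  rw [Polynomial.finset_sum_coeff, Finset.sum_eq_single (Fin.last e)]
  · simp
  · intro i _ hi
    rw [Polynomial.coeff_X_pow, if_neg]
    intro h
    apply hi
    apply Fin.ext
    simp only [Fin.val_last]
    omega
  · intro h; exact absurd (Finset.mem_univ _) h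

/-- parameters in general position -/
lemma exists_general (e n : ℕ) : ∃ T : Finset ℝ, T.card = n ∧ (∀ x ∈ T, 0 < x) ∧
    ∀ Y ⊆ T, Y.card = e + 3 → ¬ ∃ h : ℝ[X], h.degree < (e + 2 : ℕ) ∧ ∀ x ∈ Y, h.eval x = P e x := by
  classical
  induction n with
  | zero =>
    refine ⟨∅, rfl, by simp, ?_⟩
    intro Y hY hc
    rw [Finset.subset_empty] at hY
    rw [hY] at hc
    simp at hc
  | succ n ih =>
    obtain ⟨T, hT, hpos, hgen⟩ := ih
    let I : Finset ℝ → ℝ[X] := fun S => Lagrange.interpolate S id (fun s => P e s)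
    let B : Finset ℝ := T ∪ (T.powersetCard (e + 2)).biUnion fun S => (PP e - I S).roots.toFinset
    obtain ⟨x, hx, hxB⟩ : ∃ x ∈ Set.Ioi (0 : ℝ), x ∉ B :=
      (Set.Ioi_infinite (0 : ℝ)).exists_notMem_finset B
    have hxT : x ∉ T := fun h => hxB (Finset.mem_union_left _ h)
    refine ⟨insert x T, by rw [Finset.card_insert_of_notMem hxT, hT], ?_, ?_⟩
    · intro y hy
      rcases Finset.mem_insert.mp hy with rfl | hy
      · exact hx
      · exact hpos y hy
    · rintro Y hY hc ⟨h, hdeg, hval⟩
      by_cases hxY : x ∈ Y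
      · let S := Y.erase x
        have hST : S ⊆ T := by
          intro y hy
          have h1 := Finset.mem_of_mem_erase hy
          have h2 := Finset.ne_of_mem_erase hy
          exact (Finset.mem_insert.mp (hY h1)).resolve_left h2
        have hSc : S.card = e + 2 := by
          rw [Finset.card_erase_of_mem hxY, hc]
          rfl
        have hinj : Set.InjOn (id : ℝ → ℝ) S := fun a _ b _ h => h
        have heq : h = I S := by
          apply Lagrange.eq_interpolate_of_eval_eq (v := (id : ℝ → ℝ)) (fun s => P e s) hinj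
          · rw [hSc]; exact hdeg
          · intro s hs
            exact hval s (Finset.mem_of_mem_erase hs)
        have hne : PP e - I S ≠ 0 := by
          intro h0
          have h1 : (PP e - I S).coeff (2 * (e + 1)) = 0 := by rw [h0]; simp
          rw [Polynomial.coeff_sub, PP_coeff, ← heq] at h1
          have h2 : h.coeff (2 * (e + 1)) = 0 := by
            apply Polynomial.coeff_eq_zero_of_degree_lt
            refine lt_of_lt_of_le hdeg ?_
            exact_mod_cast (by omega : e + 2 ≤ 2 * (e + 1))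
          rw [h2] at h1
          norm_num at h1
        apply hxB
        apply Finset.mem_union_right
        rw [Finset.mem_biUnion]
        refine ⟨S, Finset.mem_powersetCard.mpr ⟨hST, hSc⟩, ?_⟩
        rw [Multiset.mem_toFinset, Polynomial.mem_roots hne, Polynomial.IsRoot.def,
          Polynomial.eval_sub, PP_eval, ← heq, hval x hxY]
        ring
      · apply hgen Y ?_ hc ⟨h, hdeg, hval⟩
        intro y hy
        rcases Finset.mem_insert.mp (hY hy) with rfl | h'
        · exact absurd hy hxY
        · exact h'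

lemma exists_center2 (e : ℕ) (T : Finset ℝ)
    (hT : ∀ Y ⊆ T, Y.card = e + 3 →
      ¬ ∃ h : ℝ[X], h.degree < (e + 2 : ℕ) ∧ ∀ x ∈ Y, h.eval x = P e x)
    (S : Finset ℝ) (hST : S ⊆ T) (hS : S.card = e + 2) :
    ∃ (y : Fin (e + 1) → ℝ) (ρ : ℝ), 0 ≤ ρ ∧
        (∀ s ∈ S, ∑ i : Fin (e + 1), (y i - s ^ (i.val + 1)) ^ 2 = ρ) ∧
        (∀ l ∈ T, l ∉ S → ∑ i : Fin (e + 1), (y i - l ^ (i.val + 1)) ^ 2 ≠ ρ) := by
  classical
  let Q : ℝ[X] := Lagrange.interpolate S id (fun s => P e s)
  have hinj : Set.InjOn (id : ℝ → ℝ) S := fun x _ y _ h => h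
  have hQd : Q.degree < (e + 2 : ℕ) := by
    have := Lagrange.degree_interpolate_lt (s := S) (v := id) (r := fun s => P e s) hinj
    rwa [hS] at this
  have hQs : ∀ s ∈ S, Q.eval s = P e s := fun s hs =>
    Lagrange.eval_interpolate_at_node (v := (id : ℝ → ℝ)) (fun s => P e s) hinj hs
  have hQdeg : Q.natDegree < e + 2 := by
    rcases eq_or_ne Q 0 with h | h
    · rw [h]; simp
    · exact (Polynomial.natDegree_lt_iff_degree_lt h).mpr hQd
  have hQeval : ∀ t : ℝ, Q.eval t = Q.coeff 0 + ∑ i : Fin (e + 1), Q.coeff (i.val + 1) *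
      t ^ (i.val + 1) := by
    intro t
    rw [Polynomial.eval_eq_sum_range' hQdeg, Finset.sum_range_succ', pow_zero, mul_one, add_comm,
      Fin.sum_univ_eq_sum_range (fun i => Q.coeff (i + 1) * t ^ (i + 1))]
  let y : Fin (e + 1) → ℝ := fun i => Q.coeff (i.val + 1) / 2
  let ρ : ℝ := Q.coeff 0 + ∑ i, y i ^ 2
  have key : ∀ t : ℝ, ∑ i : Fin (e + 1), (y i - t ^ (i.val + 1)) ^ 2 = ρ + (P e t - Q.eval t) := by
    intro t
    rw [hQeval t]
    have h1 : ∀ i : Fin (e + 1), (y i - t ^ (i.val + 1)) ^ 2 =
        y i ^ 2 - Q.coeff (i.val + 1) * t ^ (i.val + 1) + (t ^ (i.val + 1)) ^ 2 := by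
      intro i
      simp only [y]
      ring
    simp only [h1, Finset.sum_add_distrib, Finset.sum_sub_distrib, ρ, P]
    ring
  have hSeq : ∀ s ∈ S, ∑ i : Fin (e + 1), (y i - s ^ (i.val + 1)) ^ 2 = ρ := by
    intro s hs
    rw [key s, hQs s hs]
    ring
  refine ⟨y, ρ, ?_, hSeq, ?_⟩
  · have : S.Nonempty := Finset.card_pos.mp (by omega)
    obtain ⟨s, hs⟩ := this
    rw [← hSeq s hs]
    positivity
  · intro l hl hlS h
    rw [key l] at h
    have h1 : Q.eval l = P e l := by linarith
    apply hT (insert l S)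
    · intro x hx
      rcases Finset.mem_insert.mp hx with rfl | hx
      · exact hl
      · exact hST hx
    · rw [Finset.card_insert_of_notMem hlS, hS]
    · refine ⟨Q, hQd, ?_⟩
      intro x hx
      rcases Finset.mem_insert.mp hx with rfl | hx
      · exact h1
      · exact hQs x hx

/-- a finite graph with a proper colouring by `true, false` in which the vertices of colour `true`
have degree at most `e + 2`, and no three of them have the same `e + 2` neighbours, is an induced
subgraph of the unit distance graph of dimension `e + 2` -/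
theorem bip2 {V : Type} [Fintype V] (G : SimpleGraph V) (c : V → Bool)
    (hc : ∀ u v, G.Adj u v → c u ≠ c v) (e : ℕ)
    (hdeg : ∀ v, c v = true → (G.neighborSet v).ncard ≤ e + 2)
    (htwin : ∀ u v w : V, u ≠ v → u ≠ w → v ≠ w → c u = true → c v = true → c w = true →
      (G.neighborSet u).ncard = e + 2 → G.neighborSet u = G.neighborSet v →
      G.neighborSet u = G.neighborSet w → False) :
    ∃ φ : V → EuclideanSpace ℝ (Fin (e + 2)), Function.Injective φ ∧
      ∀ u v : V, u ≠ v → (dist (φ u) (φ v) = 1 ↔ G.Adj u v) := by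
  classical
  obtain ⟨T, hTc, hTpos, hTgen⟩ := exists_general e (Fintype.card V)
  obtain ⟨tt⟩ : Nonempty (V ≃ T) := by
    have : Fintype.card V = Fintype.card T := by simp [hTc]
    exact ⟨Fintype.equivOfCardEq this⟩
  let t : V → ℝ := fun v => (tt v : ℝ)
  have ht : Function.Injective t := fun u v h => tt.injective (Subtype.ext h)
  have htT : ∀ v, t v ∈ T := fun v => (tt v).2
  have ht0 : ∀ v, 0 ≤ t v := fun v => (hTpos _ (htT v)).le
  let idx : V → ℕ := fun v => (Fintype.equivFin V v).val
  have hidx : Function.Injective idx := fun u v h =>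
    (Fintype.equivFin V).injective (Fin.ext h)
  let N : V → Finset ℝ := fun a => (univ.filter fun b => G.Adj a b).image t
  have hNc : ∀ a, (N a).card = (G.neighborSet a).ncard := by
    intro a
    have h1 : (N a).card = (univ.filter fun b => G.Adj a b).card :=
      Finset.card_image_of_injective _ ht
    rw [h1, ← Set.ncard_coe_finset]
    congr 1
    ext b; simp
  have hNadj : ∀ a b, G.Adj a b → t b ∈ N a := fun a b h =>
    Finset.mem_image_of_mem _ (by simp [h])
  have hNnot : ∀ a b, ¬ G.Adj a b → t b ∉ N a := by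
    intro a b hb h
    rw [Finset.mem_image] at h
    obtain ⟨b', hb', h'⟩ := h
    rw [ht h'] at hb'
    simp at hb'
    exact hb hb'
  -- the small degree nodes
  have hnode : ∀ a, (G.neighborSet a).ncard ≤ e + 1 → ∃ S : Finset ℝ, S.card = e + 1 ∧
      (∀ b, G.Adj a b → t b ∈ S) ∧ ∀ b, ¬ G.Adj a b → t b ∉ S := by
    intro a ha
    have hN : (N a).card ≤ e + 1 := by rw [hNc]; exact ha
    let D : Finset ℝ := (range (e + 1 - (N a).card)).image fun i : ℕ => (-((i : ℝ) + 1))
    have hD : D.card = e + 1 - (N a).card := by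
      rw [Finset.card_image_of_injective, Finset.card_range]
      intro i j h
      simp only at h
      have : (i : ℝ) = j := by linarith
      exact_mod_cast this
    have hDneg : ∀ x ∈ D, x < 0 := by
      intro x hx
      rw [Finset.mem_image] at hx
      obtain ⟨i, _, rfl⟩ := hx
      have : (0 : ℝ) ≤ i := Nat.cast_nonneg _
      linarith
    have hdis : Disjoint (N a) D := by
      rw [Finset.disjoint_left]
      intro x hx hx'
      rw [Finset.mem_image] at hx
      obtain ⟨b, _, rfl⟩ := hx
      have := hDneg _ hx'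
      linarith [ht0 b]
    refine ⟨N a ∪ D, ?_, ?_, ?_⟩
    · rw [Finset.card_union_of_disjoint hdis, hD]; omega
    · intro b hb
      exact Finset.mem_union_left _ (hNadj a b hb)
    · intro b hb h
      rcases Finset.mem_union.mp h with h | h
      · exact hNnot a b hb h
      · have := hDneg _ h
        linarith [ht0 b]
  choose! S hScard hSadj hSnot using hnode
  let L : V → Finset ℝ := fun a => (univ.filter fun b => ¬ G.Adj a b).image t
  have hcen : ∀ a, (G.neighborSet a).ncard ≤ e + 1 → ∃ bad : Finset ℝ, ∀ lam : ℝ, lam ∉ bad →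
      ∃ (y : Fin (e + 1) → ℝ) (ρ : ℝ), 0 ≤ ρ ∧ y (Fin.last e) = lam ∧
        (∀ s ∈ S a, ∑ i : Fin (e + 1), (y i - s ^ (i.val + 1)) ^ 2 = ρ) ∧
        (∀ l ∈ L a, ∑ i : Fin (e + 1), (y i - l ^ (i.val + 1)) ^ 2 ≠ ρ) := by
    intro a ha
    apply exists_center e (S a) (hScard a ha) (L a)
    rw [Finset.disjoint_left]
    intro x hx hx'
    rw [Finset.mem_image] at hx'
    obtain ⟨b, hb, rfl⟩ := hx'
    simp at hb
    exact hSnot a ha b hb hx
  choose! bad hbad using hcen
  obtain ⟨M, hM⟩ : ∃ M : ℝ, ∀ a, ∀ x ∈ bad a, x < M := by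
    obtain ⟨M, hM⟩ := (univ.biUnion bad).exists_le
    refine ⟨M + 1, fun a x hx => ?_⟩
    have := hM x (Finset.mem_biUnion.mpr ⟨a, mem_univ _, hx⟩)
    linarith
  let lam : V → ℝ := fun a => M + t a
  have hlam : ∀ a, lam a ∉ bad a := fun a h => by
    have := hM a _ h
    simp only [lam] at this
    linarith [ht0 a]
  have hy : ∀ a, c a = true → ∃ (y : Fin (e + 1) → ℝ) (ρ : ℝ), 0 ≤ ρ ∧
        ((G.neighborSet a).ncard ≤ e + 1 → y (Fin.last e) = lam a) ∧
        (∀ b, G.Adj a b → ∑ i : Fin (e + 1), (y i - t b ^ (i.val + 1)) ^ 2 = ρ) ∧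
        (∀ b, ¬ G.Adj a b → ∑ i : Fin (e + 1), (y i - t b ^ (i.val + 1)) ^ 2 ≠ ρ) := by
    intro a ha
    rcases Nat.lt_or_ge (e + 1) (G.neighborSet a).ncard with h | h
    · have h1 : (N a).card = e + 2 := by
        rw [hNc]
        have := hdeg a ha
        omega
      have h2 : N a ⊆ T := by
        intro x hx
        rw [Finset.mem_image] at hx
        obtain ⟨b, _, rfl⟩ := hx
        exact htT b
      obtain ⟨y, ρ, h3, h4, h5⟩ := exists_center2 e T hTgen (N a) h2 h1
      exact ⟨y, ρ, h3, fun h' => absurd h' (by omega), fun b hb => h4 _ (hNadj a b hb),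
        fun b hb => h5 _ (htT b) (hNnot a b hb)⟩
    · obtain ⟨y, ρ, h3, h4, h5, h6⟩ := hbad a h (lam a) (hlam a)
      exact ⟨y, ρ, h3, fun _ => h4, fun b hb => h5 _ (hSadj a h b hb),
        fun b hb => h6 _ (Finset.mem_image_of_mem _ (by simp [hb]))⟩
  choose! y ρ hρ0 hylast hyS hyL using hy
  -- signs
  let sg : V → ℝ := fun v => if (G.neighborSet v).ncard = e + 2 ∧ ∃ u, c u = true ∧
    idx u < idx v ∧ G.neighborSet u = G.neighborSet v then -1 else 1
  have hsg : ∀ v, sg v = 1 ∨ sg v = -1 := by
    intro v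
    simp only [sg]
    split_ifs
    · exact Or.inr rfl
    · exact Or.inl rfl
  -- the common centre data
  let p : V → Fin (e + 1) → ℝ := fun v i => if c v = true then y v i else t v ^ (i.val + 1)
  let K : ℝ := 1 + ∑ v, |ρ v| + ∑ v, ∑ w, ∑ i, (p v i - p w i) ^ 2
  have hK1 : 1 ≤ K := by
    have h1 : 0 ≤ ∑ v, |ρ v| := Finset.sum_nonneg fun _ _ => abs_nonneg _
    have h2 : 0 ≤ ∑ v, ∑ w, ∑ i, (p v i - p w i) ^ 2 :=
      Finset.sum_nonneg fun _ _ => Finset.sum_nonneg fun _ _ => Finset.sum_nonneg fun _ _ =>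
        sq_nonneg _
    simp only [K]; linarith
  have hKρ : ∀ v, ρ v ≤ K := by
    intro v
    have h1 : |ρ v| ≤ ∑ v, |ρ v| :=
      Finset.single_le_sum (f := fun v => |ρ v|) (fun _ _ => abs_nonneg _) (mem_univ v)
    have h2 : 0 ≤ ∑ v, ∑ w, ∑ i, (p v i - p w i) ^ 2 :=
      Finset.sum_nonneg fun _ _ => Finset.sum_nonneg fun _ _ => Finset.sum_nonneg fun _ _ =>
        sq_nonneg _
    have h3 := le_abs_self (ρ v)
    simp only [K]; linarith
  have hKp : ∀ v w, ∑ i, (p v i - p w i) ^ 2 ≤ K := by
    intro v w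
    have h1 : 0 ≤ ∑ v, |ρ v| := Finset.sum_nonneg fun _ _ => abs_nonneg _
    have h2 : ∑ i, (p v i - p w i) ^ 2 ≤ ∑ w, ∑ i, (p v i - p w i) ^ 2 :=
      Finset.single_le_sum (f := fun w => ∑ i, (p v i - p w i) ^ 2)
        (fun _ _ => Finset.sum_nonneg fun _ _ => sq_nonneg _) (mem_univ w)
    have h3 : ∑ w, ∑ i, (p v i - p w i) ^ 2 ≤ ∑ v, ∑ w, ∑ i, (p v i - p w i) ^ 2 :=
      Finset.single_le_sum (f := fun v => ∑ w, ∑ i, (p v i - p w i) ^ 2)
        (fun _ _ => Finset.sum_nonneg fun _ _ => Finset.sum_nonneg fun _ _ => sq_nonneg _)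
        (mem_univ v)
    simp only [K]; linarith
  let ε : ℝ := Real.sqrt (1 / (4 * K))
  have hε2 : ε ^ 2 = 1 / (4 * K) := Real.sq_sqrt (by positivity)
  have hεK : ε ^ 2 * K = 1 / 4 := by rw [hε2]; field_simp
  have hεpos : 0 < ε := Real.sqrt_pos.mpr (by positivity)
  have hε2pos : 0 < ε ^ 2 := by positivity
  let z : V → ℝ := fun v => if c v = true then sg v * Real.sqrt (1 - ε ^ 2 * ρ v) else 0
  have hρK : ∀ v, ε ^ 2 * ρ v ≤ 1 / 4 := fun v => by
    rw [← hεK]; exact mul_le_mul_of_nonneg_left (hKρ v) hε2pos.le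
  have hzt : ∀ v, c v = true → z v ^ 2 = 1 - ε ^ 2 * ρ v ∧ (sg v = 1 → 0 < z v) ∧
      (sg v = -1 → z v < 0) := by
    intro v hv
    have h1 : 0 < 1 - ε ^ 2 * ρ v := by linarith [hρK v]
    have h2 := Real.sqrt_pos.mpr h1
    simp only [z, hv, if_true]
    refine ⟨?_, ?_, ?_⟩
    · rw [mul_pow, Real.sq_sqrt h1.le]
      rcases hsg v with h | h <;> rw [h] <;> ring
    · intro h; rw [h]; linarith
    · intro h; rw [h]; linarith
  have hzf : ∀ v, c v = false → z v = 0 := by
    intro v hv
    simp [z, hv]
  have hpt : ∀ v, c v = true → p v = y v := by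
    intro v hv
    funext i
    simp [p, hv]
  have hpf : ∀ v, c v = false → ∀ i, p v i = t v ^ (i.val + 1) := by
    intro v hv i
    simp [p, hv]
  let φ : V → EuclideanSpace ℝ (Fin (e + 2)) := fun v =>
    (WithLp.equiv 2 (Fin (e + 2) → ℝ)).symm (Fin.snoc (fun i => ε * p v i) (z v))
  have hφc : ∀ v (i : Fin (e + 1)), φ v i.castSucc = ε * p v i := fun v i => by
    simp [φ, Fin.snoc_castSucc]
  have hφl : ∀ v, φ v (Fin.last (e + 1)) = z v := fun v => by
    simp [φ, Fin.snoc_last]
  have hdist : ∀ u v, dist (φ u) (φ v) ^ 2 = ε ^ 2 * ∑ i, (p u i - p v i) ^ 2 + (z u - z v) ^ 2 := by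
    intro u v
    rw [EuclideanSpace.dist_eq, Real.sq_sqrt (by positivity), Fin.sum_univ_castSucc]
    simp only [hφc, hφl, Real.dist_eq, sq_abs]
    congr 1
    rw [Finset.mul_sum]
    exact Finset.sum_congr rfl fun i _ => by ring
  have hone : ∀ u v, dist (φ u) (φ v) = 1 ↔ dist (φ u) (φ v) ^ 2 = 1 := by
    intro u v
    constructor
    · intro h; rw [h]; norm_num
    · intro h
      have h0 := dist_nonneg (x := φ u) (y := φ v)
      nlinarith
  -- mixed pairs
  have hmix : ∀ a b, c a = true → c b = false → (dist (φ a) (φ b) ^ 2 = 1 ↔ G.Adj a b) := by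
    intro a b ha hb
    rw [hdist, hzf b hb, hpt a ha]
    have h1 := (hzt a ha).1
    have e1 : ∑ i, (y a i - p b i) ^ 2 = ∑ i : Fin (e + 1), (y a i - t b ^ (i.val + 1)) ^ 2 :=
      Finset.sum_congr rfl fun i _ => by rw [hpf b hb i]
    rw [e1, sub_zero, h1]
    by_cases h : G.Adj a b
    · have h2 := hyS a ha b h
      rw [h2]
      simp [h]
    · have h2 := hyL a ha b h
      constructor
      · intro h3
        exfalso
        apply h2
        have h4 : ε ^ 2 * (∑ i : Fin (e + 1), (y a i - t b ^ (i.val + 1)) ^ 2 - ρ a) = 0 := by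
          linarith
        rcases mul_eq_zero.mp h4 with h5 | h5
        · exact absurd h5 hε2pos.ne'
        · linarith
      · intro h3; exact absurd h3 h
  have hsame : ∀ u v, c u = c v → dist (φ u) (φ v) ^ 2 ≠ 1 := by
    intro u v huv
    rw [hdist]
    have h1 : ε ^ 2 * ∑ i, (p u i - p v i) ^ 2 ≤ 1 / 4 := by
      rw [← hεK]; exact mul_le_mul_of_nonneg_left (hKp u v) hε2pos.le
    have h1' : 0 ≤ ε ^ 2 * ∑ i, (p u i - p v i) ^ 2 :=
      mul_nonneg hε2pos.le (Finset.sum_nonneg fun _ _ => sq_nonneg _)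
    rcases hcu : c u with _ | _
    · rw [hzf u hcu, hzf v (by rw [← huv, hcu])]
      intro h; linarith
    · have hcv : c v = true := by rw [← huv, hcu]
      obtain ⟨hu1, hu2, hu3⟩ := hzt u hcu
      obtain ⟨hv1, hv2, hv3⟩ := hzt v hcv
      have h2 := hρK u
      have h3 := hρK v
      have h4 : 0 ≤ ε ^ 2 * ρ u := mul_nonneg hε2pos.le (hρ0 u hcu)
      have h5 : 0 ≤ ε ^ 2 * ρ v := mul_nonneg hε2pos.le (hρ0 v hcv)
      have hsq : ∀ a b : ℝ, 0 < a → 0 < b → 3 / 4 ≤ a ^ 2 → a ^ 2 ≤ 1 → 3 / 4 ≤ b ^ 2 →
          b ^ 2 ≤ 1 → (a - b) ^ 2 ≤ 1 / 4 ∧ 3 ≤ (a + b) ^ 2 := by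
        intro a b ha hb ha1 ha2 hb1 hb2
        have hab : 3 / 4 ≤ a * b := by
          by_contra hcon
          push Not at hcon
          have : (a * b) ^ 2 < (3 / 4) ^ 2 := by
            have h0 : 0 < a * b := mul_pos ha hb
            nlinarith
          have h6 : (3 / 4 : ℝ) * (3 / 4) ≤ a ^ 2 * b ^ 2 :=
            mul_le_mul ha1 hb1 (by norm_num) (by positivity)
          nlinarith
        constructor
        · rcases le_total a b with h | h
          · nlinarith [mul_nonneg ha.le (sub_nonneg.mpr h)]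
          · nlinarith [mul_nonneg hb.le (sub_nonneg.mpr h)]
        · nlinarith
      rcases hsg u with su | su <;> rcases hsg v with sv | sv
      · have := (hsq (z u) (z v) (hu2 su) (hv2 sv) (by linarith) (by linarith) (by linarith)
          (by linarith)).1
        intro h; linarith
      · have := (hsq (z u) (-z v) (hu2 su) (by linarith [hv3 sv]) (by linarith) (by linarith)
          (by rw [neg_sq]; linarith) (by rw [neg_sq]; linarith)).2
        intro h
        have e2 : (z u - z v) ^ 2 = (z u + -z v) ^ 2 := by ring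
        rw [e2] at h
        linarith
      · have := (hsq (-z u) (z v) (by linarith [hu3 su]) (hv2 sv) (by rw [neg_sq]; linarith)
          (by rw [neg_sq]; linarith) (by linarith) (by linarith)).2
        intro h
        have e2 : (z u - z v) ^ 2 = (-z u + z v) ^ 2 := by ring
        rw [e2] at h
        linarith
      · have := (hsq (-z u) (-z v) (by linarith [hu3 su]) (by linarith [hv3 sv])
          (by rw [neg_sq]; linarith) (by rw [neg_sq]; linarith) (by rw [neg_sq]; linarith)
          (by rw [neg_sq]; linarith)).1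
        intro h
        have e2 : (z u - z v) ^ 2 = (-z u - -z v) ^ 2 := by ring
        rw [e2] at h
        linarith
  -- vertices of colour true with different neighbours have different images
  have hnbr : ∀ u v, c u = true → c v = true → φ u = φ v → G.neighborSet u = G.neighborSet v := by
    intro u v hu hv huv
    have hsub : ∀ u v, c u = true → c v = true → φ u = φ v →
        G.neighborSet u ⊆ G.neighborSet v := by
      intro u v hu hv huv b hb
      have hb' : G.Adj u b := hb
      have hcb : c b = false := by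
        have := hc u b hb'
        rw [hu] at this
        cases h : c b
        · rfl
        · rw [h] at this; exact absurd rfl this
      have h1 := (hmix u b hu hcb).mpr hb'
      rw [huv] at h1
      exact (hmix v b hv hcb).mp h1
    exact Set.Subset.antisymm (hsub u v hu hv huv) (hsub v u hv hu huv.symm)
  have hsep : ∀ u v, c u = true → c v = true → φ u = φ v → idx u < idx v → False := by
    intro u v hu hv huv hlt
    have hN := hnbr u v hu hv huv
    have hne : u ≠ v := by rintro rfl; exact lt_irrefl _ hlt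
    have hl : z u = z v := by rw [← hφl u, ← hφl v, huv]
    rcases Nat.lt_or_ge (e + 1) (G.neighborSet v).ncard with hd | hd
    · have hd2 : (G.neighborSet v).ncard = e + 2 := by have := hdeg v hv; omega
      have sv : sg v = -1 := by
        simp only [sg]
        rw [if_pos ⟨hd2, u, hu, hlt, hN⟩]
      have su : sg u = 1 := by
        simp only [sg]
        rw [if_neg]
        rintro ⟨_, w, hw, hwu, hwN⟩
        have hwne : w ≠ u := by rintro rfl; exact lt_irrefl _ hwu
        have hwne' : w ≠ v := by rintro rfl; exact lt_asymm hlt hwu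
        exact htwin u v w hne hwne.symm hwne'.symm hu hv hw (by rw [hN]; exact hd2) hN hwN.symm
      have h1 := (hzt u hu).2.1 su
      have h2 := (hzt v hv).2.2 sv
      linarith
    · have hcs : p u (Fin.last e) = p v (Fin.last e) := by
        have : ε * p u (Fin.last e) = ε * p v (Fin.last e) := by
          rw [← hφc u, ← hφc v, huv]
        exact mul_left_cancel₀ hεpos.ne' this
      rw [hpt u hu, hpt v hv, hylast u hu (by rw [hN]; exact hd), hylast v hv hd] at hcs
      simp only [lam] at hcs
      exact hne (ht (by linarith))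
  refine ⟨φ, ?_, ?_⟩
  · intro u v huv
    by_contra hne
    have hl : z u = z v := by rw [← hφl u, ← hφl v, huv]
    rcases hcu : c u with _ | _ <;> rcases hcv : c v with _ | _
    · have h1 : p u 0 = p v 0 := by
        have : ε * p u 0 = ε * p v 0 := by rw [← hφc u 0, ← hφc v 0, huv]
        exact mul_left_cancel₀ hεpos.ne' this
      rw [hpf u hcu, hpf v hcv] at h1
      simp at h1
      exact hne (ht h1)
    · rw [hzf u hcu] at hl
      rcases hsg v with h | h
      · linarith [(hzt v hcv).2.1 h]
      · linarith [(hzt v hcv).2.2 h]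
    · rw [hzf v hcv] at hl
      rcases hsg u with h | h
      · linarith [(hzt u hcu).2.1 h]
      · linarith [(hzt u hcu).2.2 h]
    · rcases Nat.lt_trichotomy (idx u) (idx v) with h | h | h
      · exact hsep u v hcu hcv huv h
      · exact hne (hidx h)
      · exact hsep v u hcv hcu huv.symm h
  · intro u v _
    rw [hone]
    rcases hcu : c u with _ | _ <;> rcases hcv : c v with _ | _
    · have := hsame u v (by rw [hcu, hcv])
      constructor
      · intro h; exact absurd h this
      · intro h; exact absurd (by rw [hcu, hcv]) (hc u v h)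
    · rw [dist_comm, hmix v u hcv hcu, G.adj_comm]
    · exact hmix u v hcu hcv
    · have := hsame u v (by rw [hcu, hcv])
      constructor
      · intro h; exact absurd h this
      · intro h; exact absurd (by rw [hcu, hcv]) (hc u v h)

end Pool.Agent.Y660.FD
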