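import Mathlib

/-!
# Faithful unit distance representations of bipartite graphs

Points `(ε t, ε t ^ 2, …)` on a moment curve for one side; the centres of the other side come from
the interpolation of `∑ t ^ (2 i)` by polynomials of degree `d` with a free leading coefficient.
-/

set_option autoImplicit false

open Finset Polynomial

namespace Pool.Agent.Y660.FD

/-- the squared norm of the point of the moment curve -/
def P (e : ℕ) (t : ℝ) : ℝ := ∑ i : Fin (e + 1), (t ^ (i.val + 1)) ^ 2

lemma exists_center (e : ℕ) (S : Finset ℝ) (hS : S.card = e + 1) (L : Finset ℝ)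
    (hL : Disjoint S L) : ∃ bad : Finset ℝ, ∀ lam : ℝ, lam ∉ bad →
      ∃ (y : Fin (e + 1) → ℝ) (ρ : ℝ), 0 ≤ ρ ∧ y (Fin.last e) = lam ∧
        (∀ s ∈ S, ∑ i : Fin (e + 1), (y i - s ^ (i.val + 1)) ^ 2 = ρ) ∧
        (∀ l ∈ L, ∑ i : Fin (e + 1), (y i - l ^ (i.val + 1)) ^ 2 ≠ ρ) := by
  classical
  let I : ℝ[X] := Lagrange.interpolate S id (fun s => P e s)
  let N : ℝ[X] := Lagrange.nodal S id
  have hinj : Set.InjOn (id : ℝ → ℝ) S := fun x _ y _ h => h
  have hIdeg : I.degree < (e + 1 : ℕ) := by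
    have := Lagrange.degree_interpolate_lt (s := S) (v := id) (r := fun s => P e s) hinj
    rwa [hS] at this
  have hNmonic : N.Monic := Lagrange.nodal_monic
  have hNdeg : N.natDegree = e + 1 := by
    have := Lagrange.natDegree_nodal (s := S) (v := (id : ℝ → ℝ))
    rw [hS] at this
    exact this
  have hNl : ∀ l ∈ L, N.eval l ≠ 0 := by
    intro l hl
    apply Lagrange.eval_nodal_not_at_node
    intro s hs h
    have h' : l = s := h
    exact Finset.disjoint_left.mp hL hs (h' ▸ hl)
  have hNs : ∀ s ∈ S, N.eval s = 0 := fun s hs =>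
    Lagrange.eval_nodal_at_node (v := (id : ℝ → ℝ)) hs
  have hIs : ∀ s ∈ S, I.eval s = P e s := fun s hs =>
    Lagrange.eval_interpolate_at_node (v := (id : ℝ → ℝ)) (fun s => P e s) hinj hs
  refine ⟨L.image fun l => (P e l - I.eval l) / (2 * N.eval l), fun lam hlam => ?_⟩
  let Q : ℝ[X] := I + C (2 * lam) * N
  have hQdeg : Q.natDegree < e + 2 := by
    have h1 : I.natDegree ≤ e + 1 := by
      apply Polynomial.natDegree_le_of_degree_le
      exact hIdeg.le
    have h2 : (C (2 * lam) * N).natDegree ≤ e + 1 := by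
      rw [← hNdeg]
      exact Polynomial.natDegree_C_mul_le _ _
    have := Polynomial.natDegree_add_le I (C (2 * lam) * N)
    have h3 : max I.natDegree (C (2 * lam) * N).natDegree ≤ e + 1 := max_le h1 h2
    exact Nat.lt_succ_of_le (this.trans h3)
  have hQtop : Q.coeff (e + 1) = 2 * lam := by
    have h1 : I.coeff (e + 1) = 0 := Polynomial.coeff_eq_zero_of_degree_lt hIdeg
    have h2 : N.coeff (e + 1) = 1 := by
      rw [← hNdeg]
      exact hNmonic
    simp only [Q, Polynomial.coeff_add, Polynomial.coeff_C_mul, h1, h2]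
    ring
  have hQeval : ∀ t : ℝ, Q.eval t = Q.coeff 0 + ∑ i : Fin (e + 1), Q.coeff (i.val + 1) *
      t ^ (i.val + 1) := by
    intro t
    rw [Polynomial.eval_eq_sum_range' hQdeg, Finset.sum_range_succ', pow_zero, mul_one, add_comm,
      Fin.sum_univ_eq_sum_range (fun i => Q.coeff (i + 1) * t ^ (i + 1))]
  let y : Fin (e + 1) → ℝ := fun i => Q.coeff (i.val + 1) / 2
  let ρ : ℝ := Q.coeff 0 + ∑ i, y i ^ 2
  have key : ∀ t : ℝ, ∑ i : Fin (e + 1), (y i - t ^ (i.val + 1)) ^ 2 = ρ + (P e t - Q.eval t) := by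
    intro t
    rw [hQeval t]
    have h1 : ∀ i : Fin (e + 1), (y i - t ^ (i.val + 1)) ^ 2 =
        y i ^ 2 - Q.coeff (i.val + 1) * t ^ (i.val + 1) + (t ^ (i.val + 1)) ^ 2 := by
      intro i
      simp only [y]
      ring
    simp only [h1, Finset.sum_add_distrib, Finset.sum_sub_distrib, ρ, P]
    ring
  have hQs : ∀ s ∈ S, Q.eval s = P e s := by
    intro s hs
    simp only [Q, Polynomial.eval_add, Polynomial.eval_mul, Polynomial.eval_C, hNs s hs, hIs s hs]
    ring
  have hSeq : ∀ s ∈ S, ∑ i : Fin (e + 1), (y i - s ^ (i.val + 1)) ^ 2 = ρ := by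
    intro s hs
    rw [key s, hQs s hs]
    ring
  refine ⟨y, ρ, ?_, ?_, hSeq, ?_⟩
  · have : S.Nonempty := Finset.card_pos.mp (by omega)
    obtain ⟨s, hs⟩ := this
    rw [← hSeq s hs]
    positivity
  · simp only [y, Fin.val_last, hQtop]
    ring
  · intro l hl h
    rw [key l] at h
    apply hlam
    rw [Finset.mem_image]
    refine ⟨l, hl, ?_⟩
    have h1 : Q.eval l = I.eval l + 2 * lam * N.eval l := by
      simp only [Q, Polynomial.eval_add, Polynomial.eval_mul, Polynomial.eval_C]
    rw [h1] at h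
    have h2 := hNl l hl
    field_simp
    linarith

/-- every finite graph with a proper colouring by `true, false` in which the vertices of colour
`true` have degree at most `e + 1` is an induced subgraph of the unit distance graph of dimension
`e + 2` -/
theorem bip {V : Type} [Fintype V] (G : SimpleGraph V) (c : V → Bool)
    (hc : ∀ u v, G.Adj u v → c u ≠ c v) (e : ℕ)
    (hdeg : ∀ v, c v = true → (G.neighborSet v).ncard ≤ e + 1) :
    ∃ φ : V → EuclideanSpace ℝ (Fin (e + 2)), Function.Injective φ ∧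
      ∀ u v : V, u ≠ v → (dist (φ u) (φ v) = 1 ↔ G.Adj u v) := by
  classical
  let idx : V → ℕ := fun v => (Fintype.equivFin V v).val
  have hidx : Function.Injective idx := fun u v h =>
    (Fintype.equivFin V).injective (Fin.ext h)
  let t : V → ℝ := fun v => (idx v : ℝ)
  have ht : Function.Injective t := fun u v h => hidx (Nat.cast_injective (R := ℝ) h)
  have ht0 : ∀ v, 0 ≤ t v := fun v => Nat.cast_nonneg _
  -- the nodes
  have hnode : ∀ a, c a = true → ∃ S : Finset ℝ, S.card = e + 1 ∧ (∀ b, G.Adj a b → t b ∈ S) ∧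
      ∀ b, ¬ G.Adj a b → t b ∉ S := by
    intro a ha
    let N : Finset ℝ := (univ.filter fun b => G.Adj a b).image t
    have hN : N.card ≤ e + 1 := by
      have h1 : N.card = (univ.filter fun b => G.Adj a b).card := Finset.card_image_of_injective _ ht
      have h2 : (G.neighborSet a).ncard = (univ.filter fun b => G.Adj a b).card := by
        rw [← Set.ncard_coe_finset]
        congr 1
        ext b; simp
      rw [h1, ← h2]
      exact hdeg a ha
    let D : Finset ℝ := (range (e + 1 - N.card)).image fun i : ℕ => (-((i : ℝ) + 1))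
    have hD : D.card = e + 1 - N.card := by
      rw [Finset.card_image_of_injective, Finset.card_range]
      intro i j h
      simp only at h
      have : (i : ℝ) = j := by linarith
      exact_mod_cast this
    have hDneg : ∀ x ∈ D, x < 0 := by
      intro x hx
      rw [Finset.mem_image] at hx
      obtain ⟨i, _, rfl⟩ := hx
      have : (0 : ℝ) ≤ i := Nat.cast_nonneg _
      linarith
    have hdis : Disjoint N D := by
      rw [Finset.disjoint_left]
      intro x hx hx'
      rw [Finset.mem_image] at hx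
      obtain ⟨b, _, rfl⟩ := hx
      have := hDneg _ hx'
      linarith [ht0 b]
    refine ⟨N ∪ D, ?_, ?_, ?_⟩
    · rw [Finset.card_union_of_disjoint hdis, hD]; omega
    · intro b hb
      apply Finset.mem_union_left
      exact Finset.mem_image_of_mem _ (by simp [hb])
    · intro b hb h
      rcases Finset.mem_union.mp h with h | h
      · rw [Finset.mem_image] at h
        obtain ⟨b', hb', h'⟩ := h
        rw [ht h'] at hb'
        simp at hb'
        exact hb hb'
      · have := hDneg _ h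
        linarith [ht0 b]
  choose! S hScard hSadj hSnot using hnode
  let L : V → Finset ℝ := fun a => (univ.filter fun b => ¬ G.Adj a b).image t
  have hcen : ∀ a, c a = true → ∃ bad : Finset ℝ, ∀ lam : ℝ, lam ∉ bad →
      ∃ (y : Fin (e + 1) → ℝ) (ρ : ℝ), 0 ≤ ρ ∧ y (Fin.last e) = lam ∧
        (∀ s ∈ S a, ∑ i : Fin (e + 1), (y i - s ^ (i.val + 1)) ^ 2 = ρ) ∧
        (∀ l ∈ L a, ∑ i : Fin (e + 1), (y i - l ^ (i.val + 1)) ^ 2 ≠ ρ) := by
    intro a ha
    apply exists_center e (S a) (hScard a ha) (L a)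
    rw [Finset.disjoint_left]
    intro x hx hx'
    rw [Finset.mem_image] at hx'
    obtain ⟨b, hb, rfl⟩ := hx'
    simp at hb
    exact hSnot a ha b hb hx
  choose! bad hbad using hcen
  obtain ⟨M, hM⟩ : ∃ M : ℝ, ∀ a, ∀ x ∈ bad a, x < M := by
    obtain ⟨M, hM⟩ := (univ.biUnion bad).exists_le
    refine ⟨M + 1, fun a x hx => ?_⟩
    have := hM x (Finset.mem_biUnion.mpr ⟨a, mem_univ _, hx⟩)
    linarith
  let lam : V → ℝ := fun a => M + t a
  have hlam : ∀ a, lam a ∉ bad a := fun a h => by
    have := hM a _ h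
    simp only [lam] at this
    linarith [ht0 a]
  have hy : ∀ a, c a = true → ∃ (y : Fin (e + 1) → ℝ) (ρ : ℝ), 0 ≤ ρ ∧
        y (Fin.last e) = lam a ∧
        (∀ s ∈ S a, ∑ i : Fin (e + 1), (y i - s ^ (i.val + 1)) ^ 2 = ρ) ∧
        (∀ l ∈ L a, ∑ i : Fin (e + 1), (y i - l ^ (i.val + 1)) ^ 2 ≠ ρ) :=
    fun a ha => hbad a ha (lam a) (hlam a)
  choose! y ρ hρ0 hylast hyS hyL using hy
  -- the common centre data
  let p : V → Fin (e + 1) → ℝ := fun v i => if c v = true then y v i else t v ^ (i.val + 1)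
  let K : ℝ := 1 + ∑ v, |ρ v| + ∑ v, ∑ w, ∑ i, (p v i - p w i) ^ 2
  have hK1 : 1 ≤ K := by
    have h1 : 0 ≤ ∑ v, |ρ v| := Finset.sum_nonneg fun _ _ => abs_nonneg _
    have h2 : 0 ≤ ∑ v, ∑ w, ∑ i, (p v i - p w i) ^ 2 :=
      Finset.sum_nonneg fun _ _ => Finset.sum_nonneg fun _ _ => Finset.sum_nonneg fun _ _ =>
        sq_nonneg _
    simp only [K]; linarith
  have hKρ : ∀ v, ρ v ≤ K := by
    intro v
    have h1 : |ρ v| ≤ ∑ v, |ρ v| :=
      Finset.single_le_sum (f := fun v => |ρ v|) (fun _ _ => abs_nonneg _) (mem_univ v)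
    have h2 : 0 ≤ ∑ v, ∑ w, ∑ i, (p v i - p w i) ^ 2 :=
      Finset.sum_nonneg fun _ _ => Finset.sum_nonneg fun _ _ => Finset.sum_nonneg fun _ _ =>
        sq_nonneg _
    have h3 := le_abs_self (ρ v)
    simp only [K]; linarith
  have hKp : ∀ v w, ∑ i, (p v i - p w i) ^ 2 ≤ K := by
    intro v w
    have h1 : 0 ≤ ∑ v, |ρ v| := Finset.sum_nonneg fun _ _ => abs_nonneg _
    have h2 : ∑ i, (p v i - p w i) ^ 2 ≤ ∑ w, ∑ i, (p v i - p w i) ^ 2 :=
      Finset.single_le_sum (f := fun w => ∑ i, (p v i - p w i) ^ 2)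
        (fun _ _ => Finset.sum_nonneg fun _ _ => sq_nonneg _) (mem_univ w)
    have h3 : ∑ w, ∑ i, (p v i - p w i) ^ 2 ≤ ∑ v, ∑ w, ∑ i, (p v i - p w i) ^ 2 :=
      Finset.single_le_sum (f := fun v => ∑ w, ∑ i, (p v i - p w i) ^ 2)
        (fun _ _ => Finset.sum_nonneg fun _ _ => Finset.sum_nonneg fun _ _ => sq_nonneg _)
        (mem_univ v)
    simp only [K]; linarith
  let ε : ℝ := Real.sqrt (1 / (4 * K))
  have hε2 : ε ^ 2 = 1 / (4 * K) := Real.sq_sqrt (by positivity)
  have hεK : ε ^ 2 * K = 1 / 4 := by rw [hε2]; field_simp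
  have hεpos : 0 < ε := Real.sqrt_pos.mpr (by positivity)
  have hε2pos : 0 < ε ^ 2 := by positivity
  let z : V → ℝ := fun v => if c v = true then Real.sqrt (1 - ε ^ 2 * ρ v) else 0
  have hρK : ∀ v, ε ^ 2 * ρ v ≤ 1 / 4 := fun v => by
    rw [← hεK]; exact mul_le_mul_of_nonneg_left (hKρ v) hε2pos.le
  have hzt : ∀ v, c v = true → z v ^ 2 = 1 - ε ^ 2 * ρ v ∧ 0 < z v := by
    intro v hv
    have h1 : 0 < 1 - ε ^ 2 * ρ v := by linarith [hρK v]
    simp only [z, hv, if_true]
    exact ⟨Real.sq_sqrt h1.le, Real.sqrt_pos.mpr h1⟩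
  have hzf : ∀ v, c v = false → z v = 0 := by
    intro v hv
    simp [z, hv]
  have hpt : ∀ v, c v = true → p v = y v := by
    intro v hv
    funext i
    simp [p, hv]
  have hpf : ∀ v, c v = false → ∀ i, p v i = t v ^ (i.val + 1) := by
    intro v hv i
    simp [p, hv]
  let φ : V → EuclideanSpace ℝ (Fin (e + 2)) := fun v =>
    (WithLp.equiv 2 (Fin (e + 2) → ℝ)).symm (Fin.snoc (fun i => ε * p v i) (z v))
  have hφc : ∀ v (i : Fin (e + 1)), φ v i.castSucc = ε * p v i := fun v i => by
    simp [φ, Fin.snoc_castSucc]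
  have hφl : ∀ v, φ v (Fin.last (e + 1)) = z v := fun v => by
    simp [φ, Fin.snoc_last]
  have hdist : ∀ u v, dist (φ u) (φ v) ^ 2 = ε ^ 2 * ∑ i, (p u i - p v i) ^ 2 + (z u - z v) ^ 2 := by
    intro u v
    rw [EuclideanSpace.dist_eq, Real.sq_sqrt (by positivity), Fin.sum_univ_castSucc]
    simp only [hφc, hφl, Real.dist_eq, sq_abs]
    congr 1
    rw [Finset.mul_sum]
    exact Finset.sum_congr rfl fun i _ => by ring
  have hone : ∀ u v, dist (φ u) (φ v) = 1 ↔ dist (φ u) (φ v) ^ 2 = 1 := by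
    intro u v
    constructor
    · intro h; rw [h]; norm_num
    · intro h
      have h0 := dist_nonneg (x := φ u) (y := φ v)
      nlinarith
  -- mixed pairs
  have hmix : ∀ a b, c a = true → c b = false → (dist (φ a) (φ b) ^ 2 = 1 ↔ G.Adj a b) := by
    intro a b ha hb
    rw [hdist, hzf b hb, hpt a ha]
    have h1 := (hzt a ha).1
    have e1 : ∑ i, (y a i - p b i) ^ 2 = ∑ i : Fin (e + 1), (y a i - t b ^ (i.val + 1)) ^ 2 :=
      Finset.sum_congr rfl fun i _ => by rw [hpf b hb i]
    rw [e1, sub_zero, h1]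
    by_cases h : G.Adj a b
    · have h2 := hyS a ha (t b) (hSadj a ha b h)
      rw [h2]
      simp [h]
    · have h2 := hyL a ha (t b) (Finset.mem_image_of_mem _ (by simp [h]))
      constructor
      · intro h3
        exfalso
        apply h2
        have h4 : ε ^ 2 * (∑ i : Fin (e + 1), (y a i - t b ^ (i.val + 1)) ^ 2 - ρ a) = 0 := by
          linarith
        rcases mul_eq_zero.mp h4 with h5 | h5
        · exact absurd h5 hε2pos.ne'
        · linarith
      · intro h3; exact absurd h3 h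
  have hsame : ∀ u v, c u = c v → dist (φ u) (φ v) ^ 2 < 1 := by
    intro u v huv
    rw [hdist]
    have h1 : ε ^ 2 * ∑ i, (p u i - p v i) ^ 2 ≤ 1 / 4 := by
      rw [← hεK]; exact mul_le_mul_of_nonneg_left (hKp u v) hε2pos.le
    rcases hcu : c u with _ | _
    · rw [hzf u hcu, hzf v (by rw [← huv, hcu])]
      linarith
    · have hcv : c v = true := by rw [← huv, hcu]
      obtain ⟨hu1, hu2⟩ := hzt u hcu
      obtain ⟨hv1, hv2⟩ := hzt v hcv
      have h2 := hρK u
      have h3 := hρK v
      have h4 : 0 ≤ ε ^ 2 * ρ u := mul_nonneg hε2pos.le (hρ0 u hcu)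
      have h5 : 0 ≤ ε ^ 2 * ρ v := mul_nonneg hε2pos.le (hρ0 v hcv)
      have h6 : (z u - z v) ^ 2 ≤ 1 / 4 := by
        rcases le_total (z u) (z v) with h | h
        · nlinarith [mul_nonneg hu2.le (sub_nonneg.mpr h)]
        · nlinarith [mul_nonneg hv2.le (sub_nonneg.mpr h)]
      linarith
  refine ⟨φ, ?_, ?_⟩
  · intro u v huv
    by_contra hne
    have hl : z u = z v := by rw [← hφl u, ← hφl v, huv]
    have hcs : ∀ i, p u i = p v i := by
      intro i
      have : ε * p u i = ε * p v i := by rw [← hφc u i, ← hφc v i, huv]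
      exact mul_left_cancel₀ hεpos.ne' this
    rcases hcu : c u with _ | _ <;> rcases hcv : c v with _ | _
    · have h1 := hcs 0
      rw [hpf u hcu, hpf v hcv] at h1
      simp at h1
      exact hne (ht h1)
    · rw [hzf u hcu] at hl
      linarith [(hzt v hcv).2]
    · rw [hzf v hcv] at hl
      linarith [(hzt u hcu).2]
    · have h1 := hcs (Fin.last e)
      rw [hpt u hcu, hpt v hcv, hylast u hcu, hylast v hcv] at h1
      simp only [lam] at h1
      exact hne (ht (by linarith))
  · intro u v _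
    rw [hone]
    rcases hcu : c u with _ | _ <;> rcases hcv : c v with _ | _
    · have := hsame u v (by rw [hcu, hcv])
      constructor
      · intro h; linarith
      · intro h; exact absurd (by rw [hcu, hcv]) (hc u v h)
    · rw [dist_comm, hmix v u hcv hcu, G.adj_comm]
    · exact hmix u v hcu hcv
    · have := hsame u v (by rw [hcu, hcv])
      constructor
      · intro h; linarith
      · intro h; exact absurd (by rw [hcu, hcv]) (hc u v h)

end Pool.Agent.Y660.FD
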